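import Pool.Agent.X23.WL.Main

/-!
# MP_332aa0_an: the answer to Q1 is no

For every `0 < p ≤ 1` and every martingale `f` on the Walsh group whose `H_p` modulus of continuity
is `O(log n / (2^{n(1/p-1)} (log n)^{2[p]}))`, the Nörlund logarithmic means satisfy
`‖L_k f - f‖_{weak-L_p} → 0`.
-/

set_option autoImplicit false

open Filter Topology

namespace Pool.Agent.Results.MP_332aa0_an.NoSuchMartingale

open Pool.Agent.X23.WL

theorem result (p : ℝ) (hp : 0 < p) (hp1 : p ≤ 1) (f : ℕ → Pt → ℂ) (hf : IsMart f)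
    (hmod : ∃ C : ℝ, ∀ᶠ n : ℕ in atTop, hN p (fun k x => f k x - f (min k n) x) ≤
      ENNReal.ofReal (C * (Real.log n / ((2 : ℝ) ^ (n * (1 / p - 1)) *
        Real.log n ^ (2 * ⌊p⌋₊))))) :
    (∃ c, IsCoef f c) ∧ (∃ F, IsLim f F) ∧ ∀ c F, IsCoef f c → IsLim f F →
      Tendsto (fun k => wN p (fun x => L c k x - F x)) atTop (𝓝 0) :=
  main p hp hp1 f hf hmod

end Pool.Agent.Results.MP_332aa0_an.NoSuchMartingale
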